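import Pool.Agent.R763.Chg2

set_option autoImplicit false
open MeasureTheory Set Filter Topology

namespace Pool.Agent.Results.MP_4eea03_an.NearSquare

open Pool.Agent.R763.Chg

/-! ### polygons close to the square -/

noncomputable def tt (m j : ℕ) : ℝ := -1 + 2 * j / (m - 1)

/-- the vertices on the right -/
noncomputable def pt (m j : ℕ) : ℝ × ℝ := (1 + (1 - tt m j ^ 2) / 500, tt m j)

noncomputable def V (m : ℕ) : Finset (ℝ × ℝ) :=
  (Finset.range m).image (pt m) ∪ (Finset.range m).image (fun j => -pt m j)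

theorem not_mem_hull {S : Set (ℝ × ℝ)} {v : ℝ × ℝ} {a b : ℝ}
    (h : ∀ w ∈ S, w ≠ v → a * w.1 + b * w.2 < a * v.1 + b * v.2) : v ∉ convexHull ℝ (S \ {v}) := by
  intro hv
  have hlin : IsLinearMap ℝ (fun w : ℝ × ℝ => a * w.1 + b * w.2) := by
    constructor
    · intro x y; simp only [Prod.fst_add, Prod.snd_add]; ring
    · intro c x; simp only [Prod.smul_fst, Prod.smul_snd, smul_eq_mul]; ring
  have h1 : convexHull ℝ (S \ {v}) ⊆ {w | a * w.1 + b * w.2 < a * v.1 + b * v.2} := by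
    apply convexHull_min
    · intro w hw
      exact h w hw.1 (fun e => hw.2 e)
    · exact convex_halfSpace_lt hlin _
  have h2 : a * v.1 + b * v.2 < a * v.1 + b * v.2 := h1 hv
  exact lt_irrefl _ h2

section
variable {m : ℕ} (hm : 2 ≤ m)
include hm

theorem hm1 : (0:ℝ) < (m:ℝ) - 1 := by
  have : (2:ℝ) ≤ m := by exact_mod_cast hm
  linarith

theorem tt_lt {i j : ℕ} (h : i < j) : tt m i < tt m j := by
  have h1 := hm1 hm
  have h2 : (i:ℝ) < j := by exact_mod_cast h
  unfold tt
  have : 2 * (i:ℝ) / (m - 1) < 2 * j / (m - 1) := div_lt_div_of_pos_right (by linarith) h1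
  linarith

theorem tt_inj {i j : ℕ} (h : tt m i = tt m j) : i = j := by
  rcases lt_trichotomy i j with h1 | h1 | h1
  · have := tt_lt hm h1; linarith
  · exact h1
  · have := tt_lt hm h1; linarith

theorem tt_mem {j : ℕ} (hj : j < m) : -1 ≤ tt m j ∧ tt m j ≤ 1 := by
  have h1 := hm1 hm
  have h2 : (j:ℝ) ≤ m - 1 := by
    have : (j:ℝ) + 1 ≤ m := by exact_mod_cast hj
    linarith
  unfold tt
  constructor
  · have : 0 ≤ 2 * (j:ℝ) / (m - 1) := by positivity
    linarith
  · have : 2 * (j:ℝ) / (m - 1) ≤ 2 := by rw [div_le_iff₀ h1]; linarith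
    linarith

theorem card_V : (V m).card = 2 * m := by
  rw [V, Finset.card_union_of_disjoint, Finset.card_image_of_injective, Finset.card_image_of_injective,
    Finset.card_range]
  · ring
  · intro i j h
    have h' : -pt m i = -pt m j := h
    exact tt_inj hm (congrArg Prod.snd (neg_injective h'))
  · intro i j h
    exact tt_inj hm (congrArg Prod.snd h)
  · rw [Finset.disjoint_left]
    rintro x hx hx'
    rw [Finset.mem_image] at hx hx'
    obtain ⟨i, hi, rfl⟩ := hx
    obtain ⟨j, hj, h⟩ := hx'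
    have h1 := congrArg Prod.fst h
    have h2 := tt_mem hm (Finset.mem_range.1 hi)
    have h3 := tt_mem hm (Finset.mem_range.1 hj)
    simp only [pt, Prod.fst_neg] at h1
    nlinarith

theorem exposed {v : ℝ × ℝ} (hv : v ∈ V m) : v ∉ convexHull ℝ ((V m : Set (ℝ × ℝ)) \ {v}) := by
  rw [V, Finset.mem_union, Finset.mem_image, Finset.mem_image] at hv
  have key : ∀ i j, i < m → j < m →
      (pt m i ≠ pt m j → (pt m i).1 + tt m j / 250 * (pt m i).2 < (pt m j).1 + tt m j / 250 * (pt m j).2) ∧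
      -((pt m i).1 + tt m j / 250 * (pt m i).2) < (pt m j).1 + tt m j / 250 * (pt m j).2 := by
    intro i j hi hj
    have h2 := tt_mem hm hi
    have h3 := tt_mem hm hj
    simp only [pt]
    constructor
    · intro hne
      have hne' : tt m i ≠ tt m j := by
        intro h
        apply hne
        simp only [pt, h]
      have : 0 < (tt m i - tt m j) ^ 2 := by
        have := sub_ne_zero.2 hne'
        positivity
      nlinarith
    · nlinarith [mul_nonneg (sub_nonneg.2 h2.1) (sub_nonneg.2 h3.1), mul_nonneg (sub_nonneg.2 h2.2) (sub_nonneg.2 h3.2)]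
  rcases hv with ⟨j, hj, rfl⟩ | ⟨j, hj, rfl⟩
  · apply not_mem_hull (a := 1) (b := tt m j / 250)
    intro w hw hne
    rw [Finset.mem_coe, V, Finset.mem_union, Finset.mem_image, Finset.mem_image] at hw
    rcases hw with ⟨i, hi, rfl⟩ | ⟨i, hi, rfl⟩
    · have := (key i j (Finset.mem_range.1 hi) (Finset.mem_range.1 hj)).1 hne
      linarith
    · have := (key i j (Finset.mem_range.1 hi) (Finset.mem_range.1 hj)).2
      simp only [Prod.fst_neg, Prod.snd_neg]
      linarith
  · apply not_mem_hull (a := -1) (b := -(tt m j / 250))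
    intro w hw hne
    rw [Finset.mem_coe, V, Finset.mem_union, Finset.mem_image, Finset.mem_image] at hw
    rcases hw with ⟨i, hi, rfl⟩ | ⟨i, hi, rfl⟩
    · have := (key i j (Finset.mem_range.1 hi) (Finset.mem_range.1 hj)).2
      simp only [Prod.fst_neg, Prod.snd_neg]
      linarith
    · have := (key i j (Finset.mem_range.1 hi) (Finset.mem_range.1 hj)).1 (fun h => hne (by rw [h]))
      simp only [Prod.fst_neg, Prod.snd_neg]
      linarith

theorem V_neg : -(V m : Set (ℝ × ℝ)) = V m := by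
  have h : ∀ x, x ∈ V m → -x ∈ V m := by
    intro x hx
    rw [V, Finset.mem_union, Finset.mem_image, Finset.mem_image] at hx ⊢
    rcases hx with ⟨i, hi, rfl⟩ | ⟨i, hi, rfl⟩
    · exact Or.inr ⟨i, hi, rfl⟩
    · exact Or.inl ⟨i, hi, by simp⟩
  ext x
  rw [Set.mem_neg]
  constructor
  · intro hx
    have := h _ hx
    rwa [neg_neg] at this
  · exact fun hx => h x hx

theorem hull_box : convexHull ℝ (V m : Set (ℝ × ℝ)) ⊆ Icc (-(501/500) : ℝ) (501/500) ×ˢ Icc (-1 : ℝ) 1 := by
  apply convexHull_min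
  · intro x hx
    rw [Finset.mem_coe, V, Finset.mem_union, Finset.mem_image, Finset.mem_image] at hx
    rcases hx with ⟨i, hi, rfl⟩ | ⟨i, hi, rfl⟩
    · have h2 := tt_mem hm (Finset.mem_range.1 hi)
      refine ⟨⟨?_, ?_⟩, ⟨?_, ?_⟩⟩ <;> simp only [pt] <;> nlinarith
    · have h2 := tt_mem hm (Finset.mem_range.1 hi)
      refine ⟨⟨?_, ?_⟩, ⟨?_, ?_⟩⟩ <;> simp only [pt, Prod.fst_neg, Prod.snd_neg] <;> nlinarith
  · exact (convex_Icc _ _).prod (convex_Icc _ _)

theorem square_hull : Icc (-1 : ℝ) 1 ×ˢ Icc (-1 : ℝ) 1 ⊆ convexHull ℝ (V m : Set (ℝ × ℝ)) := by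
  have hm' := hm1 hm
  have t0 : tt m 0 = -1 := by simp [tt]
  have t1 : tt m (m - 1) = 1 := by
    unfold tt
    rw [Nat.cast_sub (by omega : 1 ≤ m), Nat.cast_one]
    field_simp
    ring
  have p0 : pt m 0 = (1, -1) := by simp [pt, t0]
  have p1 : pt m (m - 1) = (1, 1) := by simp [pt, t1]
  have hV : ∀ j, j < m → pt m j ∈ V m ∧ -pt m j ∈ V m := by
    intro j hj
    rw [V, Finset.mem_union, Finset.mem_union, Finset.mem_image, Finset.mem_image, Finset.mem_image, Finset.mem_image]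
    exact ⟨Or.inl ⟨j, Finset.mem_range.2 hj, rfl⟩, Or.inr ⟨j, Finset.mem_range.2 hj, rfl⟩⟩
  have a1 : ((1, -1) : ℝ × ℝ) ∈ convexHull ℝ (V m : Set (ℝ × ℝ)) := by
    apply subset_convexHull; rw [← p0]; exact (hV 0 (by omega)).1
  have a2 : ((1, 1) : ℝ × ℝ) ∈ convexHull ℝ (V m : Set (ℝ × ℝ)) := by
    apply subset_convexHull; rw [← p1]; exact (hV (m - 1) (by omega)).1
  have a3 : ((-1, 1) : ℝ × ℝ) ∈ convexHull ℝ (V m : Set (ℝ × ℝ)) := by
    apply subset_convexHull
    have : ((-1, 1) : ℝ × ℝ) = -pt m 0 := by rw [p0]; simp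
    rw [this]; exact (hV 0 (by omega)).2
  have a4 : ((-1, -1) : ℝ × ℝ) ∈ convexHull ℝ (V m : Set (ℝ × ℝ)) := by
    apply subset_convexHull
    have : ((-1, -1) : ℝ × ℝ) = -pt m (m - 1) := by rw [p1]; simp
    rw [this]; exact (hV (m - 1) (by omega)).2
  have hc := convex_convexHull ℝ (V m : Set (ℝ × ℝ))
  rintro ⟨x, y⟩ ⟨hx, hy⟩
  simp only at hx hy
  have b1 : ((1, y) : ℝ × ℝ) ∈ convexHull ℝ (V m : Set (ℝ × ℝ)) := by
    have := hc a2 a1 (a := (1 + y) / 2) (b := (1 - y) / 2) (by linarith [hy.1]) (by linarith [hy.2]) (by ring)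
    convert this using 1
    ext <;> simp <;> ring
  have b2 : ((-1, y) : ℝ × ℝ) ∈ convexHull ℝ (V m : Set (ℝ × ℝ)) := by
    have := hc a3 a4 (a := (1 + y) / 2) (b := (1 - y) / 2) (by linarith [hy.1]) (by linarith [hy.2]) (by ring)
    convert this using 1
    ext <;> simp <;> ring
  have := hc b1 b2 (a := (1 + x) / 2) (b := (1 - x) / 2) (by linarith [hx.1]) (by linarith [hx.2]) (by ring)
  convert this using 1
  ext <;> simp <;> ring

theorem square_int : Ioo (-1 : ℝ) 1 ×ˢ Ioo (-1 : ℝ) 1 ⊆ interior (convexHull ℝ (V m : Set (ℝ × ℝ))) := by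
  apply interior_maximal
  · exact (Set.prod_mono Ioo_subset_Icc_self Ioo_subset_Icc_self).trans (square_hull hm)
  · exact isOpen_Ioo.prod isOpen_Ioo

theorem body_P : IsBody (interior (convexHull ℝ (V m : Set (ℝ × ℝ)))) := by
  refine ⟨⟨0, square_int hm ⟨by constructor <;> simp, by constructor <;> simp⟩⟩, isOpen_interior, ?_,
    (convex_convexHull ℝ _).interior, ?_⟩
  · exact ((isCompact_Icc.prod isCompact_Icc).isBounded.subset (hull_box hm)).subset interior_subset
  · intro x hx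
    have h1 : {y : ℝ × ℝ | -y ∈ interior (convexHull ℝ (V m : Set (ℝ × ℝ)))} ⊆
        interior (convexHull ℝ (V m : Set (ℝ × ℝ))) := by
      apply interior_maximal
      · intro y hy
        have h2 : -y ∈ convexHull ℝ (V m : Set (ℝ × ℝ)) := interior_subset hy
        rw [← Set.mem_neg, ← convexHull_neg, V_neg hm] at h2
        exact h2
      · exact isOpen_interior.preimage continuous_neg
    apply h1
    show -(-x) ∈ interior (convexHull ℝ (V m : Set (ℝ × ℝ)))
    rwa [neg_neg]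

theorem near_P {x : ℝ × ℝ} (hx : x ∈ closure (interior (convexHull ℝ (V m : Set (ℝ × ℝ))))) :
    |x.1| ≤ 501 / 500 ∧ |x.2| ≤ 1 := by
  have h1 : closure (interior (convexHull ℝ (V m : Set (ℝ × ℝ)))) ⊆
      Icc (-(501/500) : ℝ) (501/500) ×ˢ Icc (-1 : ℝ) 1 :=
    closure_minimal (interior_subset.trans (hull_box hm)) (isClosed_Icc.prod isClosed_Icc)
  have h2 := h1 hx
  exact ⟨abs_le.2 h2.1, abs_le.2 h2.2⟩

end

/-- For every even `n ≥ 100` there is a centrally symmetric convex `n`-gon `P` (close to a square)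
with `𝒥_B[P] < 𝒥_B[P*_n]`. -/
theorem result : ∀ n : ℕ, Even n → 100 ≤ n →
    ∃ P : Set (ℝ × ℝ), IsBody P ∧ IsPolygon n P ∧ J P < J (regular n) := by
  intro n hn h100
  obtain ⟨m, hm⟩ := hn
  have hm2 : 2 ≤ m := by omega
  refine ⟨interior (convexHull ℝ (V m : Set (ℝ × ℝ))), body_P hm2, ⟨V m, ?_, ?_, rfl⟩, ?_⟩
  · rw [card_V hm2]; omega
  · exact fun v hv => exposed hm2 hv
  · exact ((J_near (body_P hm2).bounded (square_int hm2) (fun x hx => near_P hm2 hx)).trans_lt numeric).trans_le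
      (J_regular h100)

end Pool.Agent.Results.MP_4eea03_an.NearSquare
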